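import Pool.Agent.D0H38.TD.Stm4

/-!
# Project TD (helper38), module HALL: a permutation of the colours which avoids the forbidden ones
-/

set_option autoImplicit false

namespace Pool.Agent.D0H28.TD

open Pool.Agent.D0H38.TD Finset

theorem t_HALL : S_HALL := by
  classical
  intro V _ M k S f forb hforb hk hS hM hj
  obtain ⟨j₁, j₂, hne, h1, h2⟩ := hj
  let t : Fin M → Finset (Fin M) := fun β => univ.filter (fun j => ∀ v, f v = j → β ∉ forb v)
  have ht : ∀ β j, j ∈ t β ↔ ∀ v, f v = j → β ∉ forb v := by
    intro β j; simp [t]
  have hn : ∀ j, {v | f v = j}.ncard = (univ.filter (fun v => f v = j)).card := by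
    intro j
    rw [← Set.ncard_coe_finset]
    congr 1
    ext v; simp
  have hk' : (univ.filter (fun j : Fin M => 2 ≤ (univ.filter (fun v => f v = j)).card)).card ≤ k := by
    have e : {j | 2 ≤ {v | f v = j}.ncard} =
        ((univ.filter (fun j : Fin M => 2 ≤ (univ.filter (fun v => f v = j)).card) : Finset (Fin M)) :
          Set (Fin M)) := by
      ext j; simp [hn]
    rw [e, Set.ncard_coe_finset] at hk
    exact hk
  have hall : ∀ X : Finset (Fin M), X.card ≤ (X.biUnion t).card := by
    intro X
    rcases X.eq_empty_or_nonempty with h0 | ⟨β, hβ⟩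
    · simp [h0]
    by_cases hX : X.card ≤ 2
    · have hsub : ({j₁, j₂} : Finset (Fin M)) ⊆ X.biUnion t := by
        intro j hj
        rw [mem_biUnion]
        refine ⟨β, hβ, ?_⟩
        rw [ht]
        intro v hv
        rcases mem_insert.1 hj with h | h
        · exact absurd (hv.trans h) (h1 v)
        · exact absurd (hv.trans (mem_singleton.1 h)) (h2 v)
      calc X.card ≤ 2 := hX
        _ = ({j₁, j₂} : Finset (Fin M)).card := (card_pair hne).symm
        _ ≤ _ := card_le_card hsub
    · push Not at hX
      have key : ∀ j, j ∉ X.biUnion t → X.card ≤ 2 * (univ.filter (fun v => f v = j)).card := by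
        intro j hj
        have hsub : X ⊆ (univ.filter (fun v => f v = j)).biUnion forb := by
          intro x hx
          by_contra hc
          apply hj
          rw [mem_biUnion]
          refine ⟨x, hx, ?_⟩
          rw [ht]
          intro v hv hxv
          exact hc (mem_biUnion.2 ⟨v, by simp [hv], hxv⟩)
        calc X.card ≤ _ := card_le_card hsub
          _ ≤ (univ.filter (fun v => f v = j)).card * 2 :=
            card_biUnion_le_card_mul _ _ _ (fun v _ => hforb v)
          _ = _ := by ring
      have hc : (univ \ X.biUnion t).card ≤ k := by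
        refine le_trans (card_le_card ?_) hk'
        intro j hj
        have hj' : j ∉ X.biUnion t := (mem_sdiff.1 hj).2
        have := key j hj'
        simp only [mem_filter, mem_univ, true_and]
        omega
      have hU : (univ \ X.biUnion t).card = M - (X.biUnion t).card := by
        rw [card_sdiff_of_subset (subset_univ _)]; simp
      have hUM : (X.biUnion t).card ≤ M := by
        simpa using card_le_card (subset_univ (X.biUnion t))
      by_cases he : (univ \ X.biUnion t) = ∅
      · have h3 : (univ \ X.biUnion t).card = 0 := by rw [he]; simp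
        have h4 : X.card ≤ M := by simpa using card_le_card (subset_univ X)
        omega
      · obtain ⟨j, hj⟩ := nonempty_iff_ne_empty.2 he
        have h5 := key j (mem_sdiff.1 hj).2
        have h6 := hS j
        rw [hn] at h6
        omega
  obtain ⟨π, hπ, hπt⟩ := (Finset.all_card_le_biUnion_card_iff_exists_injective t).1 hall
  have hbij : Function.Bijective π := Finite.injective_iff_bijective.1 hπ
  refine ⟨(Equiv.ofBijective π hbij).symm, fun v => ?_⟩
  have h7 := hπt ((Equiv.ofBijective π hbij).symm (f v))
  rw [ht] at h7
  refine h7 v ?_
  exact ((Equiv.ofBijective π hbij).apply_symm_apply (f v)).symm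

end Pool.Agent.D0H28.TD
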